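import Pool.Agent.H.MP_bd9a46_an.D

set_option autoImplicit false

open MeasureTheory AddCircle Filter

namespace Pool.Agent.Results.MP_bd9a46_an.No

/-- `h` lies in `H^∞`. -/
def IsHinf (h : UnitAddCircle → ℂ) : Prop :=
  MemLp h ⊤ haarAddCircle ∧ ∀ n < 0, fourierCoeff h n = 0

/-- `φ` lies in `M_p`: convolution with its Fourier coefficients is bounded for the `ℓ^p` norm
(tested on finitely supported sequences). -/
def IsMult (p : ℝ) (φ : UnitAddCircle → ℂ) : Prop :=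
  MemLp φ ⊤ haarAddCircle ∧ ∃ C : ℝ, ∀ (S T : Finset ℤ) (a : ℤ → ℂ),
    ∑ n ∈ T, ‖∑ m ∈ S, fourierCoeff φ (n - m) * a m‖ ^ p ≤ C * ∑ m ∈ S, ‖a m‖ ^ p

/-- `F` lies in `X_p`, the `L^∞` closure of `H^∞ + M_p`. -/
def InX (p : ℝ) (F : UnitAddCircle → ℂ) : Prop :=
  MemLp F ⊤ haarAddCircle ∧ ∀ ε : ℝ, 0 < ε → ∃ h φ : UnitAddCircle → ℂ, IsHinf h ∧ IsMult p φ ∧
    eLpNorm (F - (h + φ)) ⊤ haarAddCircle ≤ ENNReal.ofReal ε

open Pool.Agent.H.MP_bd9a46_an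

theorem result : ∃ u v : UnitAddCircle → ℂ, IsHinf u ∧ IsMult 4 v ∧ InX 4 u ∧ InX 4 v ∧
    ¬ InX 4 (u * v) := by
  have e : ∀ x : ℝ, x ^ (4 : ℝ) = x ^ 4 := fun x => by exact_mod_cast Real.rpow_natCast x 4
  have h1 : IsHinf fun θ => hh (zz θ) := ⟨memLp_top_of_bound hh_spec.1 1
    (Eventually.of_forall fun θ => (tu (zz_norm θ)).2.2.1), hh_spec.2⟩
  have h2 : IsMult 4 fun θ => ph (zz θ) := ⟨memLp_top_of_bound ph_spec.1 3
    (Eventually.of_forall ph_le), 5024, by simpa only [e] using ph_spec.2⟩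
  have h3 : IsHinf 0 := ⟨MemLp.zero, fun n _ => by simp [fourierCoeff]⟩
  have h4 : IsMult 4 0 := ⟨MemLp.zero, 0, fun S T a => by simp [fourierCoeff]⟩
  refine ⟨_, _, h1, h2, ⟨h1.1, fun ε _ => ⟨_, _, h1, h4, by simp⟩⟩,
    ⟨h2.1, fun ε _ => ⟨_, _, h3, h2, by simp⟩⟩, fun h => ?_⟩
  obtain ⟨f, ψ, a1, ⟨a2, C, a3⟩, a4⟩ := h.2 (1 / 10) (by norm_num)
  refine fin (a1.1.integrable le_top) (a2.integrable le_top) a1.2 (C := C)
    (by simpa only [e] using a3) ?_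
  filter_upwards [ae_le_eLpNormEssSup (μ := haarAddCircle)
    (f := (fun θ => hh (zz θ)) * (fun θ => ph (zz θ)) - (f + ψ))] with θ hθ
  rw [eLpNorm_exponent_top] at a4
  have := hθ.trans a4
  rwa [← ofReal_norm_eq_enorm, ENNReal.ofReal_le_ofReal_iff (by norm_num)] at this

end Pool.Agent.Results.MP_bd9a46_an.No
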